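import Mathlib
set_option autoImplicit false

/-! Going up for the exponents of simultaneous approximation to powers of a real number. -/

namespace Pool.Agent.X333.GU

open Finset

attribute [local instance] Matrix.seminormedAddCommGroup in
/-- Siegel's lemma for one equation. -/
theorem siegel (m : ℕ) (hm : 1 ≤ m) (y : ℕ → ℤ) (hy0 : y 0 ≠ 0) (A : ℝ) (hA1 : 1 ≤ A)
    (hA : ∀ j ≤ m, |(y j : ℝ)| ≤ A) :
    ∃ d : ℕ, 1 ≤ d ∧ d ≤ m ∧ ∃ c : ℕ → ℤ, 0 < c d ∧
      (∀ j ≤ d, |(c j : ℝ)| ≤ ((m + 1) * A) ^ ((1 : ℝ) / m)) ∧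
      ∑ j ∈ range (d + 1), c j * y j = 0 := by
  let M : Matrix (Fin 1) (Fin (m + 1)) ℤ := fun _ j => y j
  obtain ⟨t, ht0, htM, htn⟩ := Int.Matrix.exists_ne_zero_int_vec_norm_le M
    (by simp; omega) (by simp)
  simp only [Fintype.card_fin] at htn
  have hMn : ‖M‖ ≤ A := by
    rw [Matrix.norm_le_iff (by linarith)]
    intro i j
    rw [Int.norm_eq_abs]
    exact hA j (Nat.lt_succ_iff.1 j.2)
  have hexp : ((1 : ℕ) : ℝ) / (((m + 1 : ℕ) : ℝ) - ((1 : ℕ) : ℝ)) = (1 : ℝ) / m := by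
    push_cast
    ring
  have hB : ‖t‖ ≤ ((m + 1) * A) ^ ((1 : ℝ) / m) := by
    refine htn.trans ?_
    rw [hexp]
    refine Real.rpow_le_rpow (by positivity) ?_ (by positivity)
    push_cast
    exact mul_le_mul_of_nonneg_left (max_le hA1 hMn) (by positivity)
  -- extend by zero
  let t' : ℕ → ℤ := fun j => if h : j < m + 1 then t ⟨j, h⟩ else 0
  have ht' : ∀ j, |(t' j : ℝ)| ≤ ((m + 1) * A) ^ ((1 : ℝ) / m) := by
    intro j
    by_cases h : j < m + 1
    · simp only [t', dif_pos h]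
      rw [← Int.norm_eq_abs]
      exact (norm_le_pi_norm t _).trans hB
    · simp only [t', dif_neg h]
      simp
      positivity
  have hsum : ∑ j ∈ range (m + 1), t' j * y j = 0 := by
    have h1 := congrFun htM 0
    simp only [Matrix.mulVec, dotProduct, M, Pi.zero_apply] at h1
    rw [Finset.sum_range, ← h1]
    refine Finset.sum_congr rfl fun j _ => ?_
    simp only [t', dif_pos j.2]
    ring
  have hne : ((range (m + 1)).filter (fun j => t' j ≠ 0)).Nonempty := by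
    obtain ⟨j, hj⟩ := Function.ne_iff.1 ht0
    refine ⟨j, ?_⟩
    rw [mem_filter, mem_range]
    refine ⟨j.2, ?_⟩
    simp only [t', dif_pos j.2]
    exact hj
  set d := ((range (m + 1)).filter (fun j => t' j ≠ 0)).max' hne with hd
  have hdmem := Finset.max'_mem _ hne
  rw [← hd, mem_filter, mem_range] at hdmem
  have hmax : ∀ j, j < m + 1 → t' j ≠ 0 → j ≤ d := fun j hj hj2 =>
    Finset.le_max' _ _ (mem_filter.2 ⟨mem_range.2 hj, hj2⟩)
  have hsum2 : ∑ j ∈ range (d + 1), t' j * y j = 0 := by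
    rw [← hsum]
    refine Finset.sum_subset (fun j hj => ?_) (fun j hj hj2 => ?_)
    · rw [mem_range] at hj ⊢
      omega
    · rw [mem_range] at hj hj2
      by_contra hcon
      have := hmax j hj (left_ne_zero_of_mul hcon)
      omega
  have hd1 : 1 ≤ d := by
    by_contra hcon
    have h0 : d = 0 := by omega
    rw [h0] at hsum2
    simp only [zero_add, range_one, sum_singleton] at hsum2
    rw [h0] at hdmem
    exact hdmem.2 ((mul_eq_zero.1 hsum2).resolve_right hy0)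
  rcases lt_or_gt_of_ne hdmem.2 with hneg | hpos
  · refine ⟨d, hd1, by omega, fun j => - t' j, by simpa using hneg, fun j _ => ?_, ?_⟩
    · push_cast
      rw [abs_neg]
      exact ht' j
    · simp only [neg_mul, Finset.sum_neg_distrib, hsum2, neg_zero]
  · exact ⟨d, hd1, by omega, t', hpos, fun j _ => ht' j, hsum2⟩

/-- The algebraic step: from a good denominator `q` for `m` powers we get the good denominator
`c_d q` for `m + 1` powers. -/
theorem step_alg (m : ℕ) (ξ : ℝ) (B : ℝ) (hB1 : 1 ≤ B) (hBξ : |ξ| ≤ B) (q : ℕ)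
    (y : ℕ → ℤ) (hy0 : y 0 = q) (δ : ℝ) (hδ : ∀ j ≤ m, |(q : ℝ) * ξ ^ j - y j| ≤ δ)
    (d : ℕ) (hd1 : 1 ≤ d) (hdm : d ≤ m) (c : ℕ → ℤ) (hcd : 0 < c d) (H : ℝ)
    (hH : ∀ j ≤ d, |(c j : ℝ)| ≤ H) (hsum : ∑ j ∈ range (d + 1), c j * y j = 0) (j : ℕ)
    (hj : j ≤ m + 1) : ∃ z : ℤ, |(c d : ℝ) * q * ξ ^ j - z| ≤ 2 * (m + 1) * B ^ (m + 1) * H * δ := by
  have hcd' : (0 : ℝ) < c d := by exact_mod_cast hcd
  have hH0 : 0 ≤ H := (abs_nonneg _).trans (hH d le_rfl)
  have hδ0 : 0 ≤ δ := (abs_nonneg _).trans (hδ 0 (Nat.zero_le _))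
  have hBp : 1 ≤ B ^ (m + 1) := one_le_pow₀ hB1
  have hm0 : (0 : ℝ) ≤ m := Nat.cast_nonneg m
  rcases Nat.lt_or_ge m j with hjm | hjm
  · have hj' : j = m + 1 := by omega
    subst hj'
    refine ⟨-∑ i ∈ range d, c i * y (m + 1 - d + i), ?_⟩
    -- the value of the polynomial at ξ
    have hP : |∑ i ∈ range (d + 1), (c i : ℝ) * ((q : ℝ) * ξ ^ i)| ≤ (m + 1) * H * δ := by
      have h1 : ∑ i ∈ range (d + 1), (c i : ℝ) * ((q : ℝ) * ξ ^ i) =
          ∑ i ∈ range (d + 1), (c i : ℝ) * ((q : ℝ) * ξ ^ i - y i) := by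
        have h2 : ∑ i ∈ range (d + 1), (c i : ℝ) * (y i : ℝ) = 0 := by exact_mod_cast hsum
        simp only [mul_sub]
        rw [Finset.sum_sub_distrib, h2, sub_zero]
      rw [h1]
      calc |∑ i ∈ range (d + 1), (c i : ℝ) * ((q : ℝ) * ξ ^ i - y i)|
          ≤ ∑ i ∈ range (d + 1), |(c i : ℝ) * ((q : ℝ) * ξ ^ i - y i)| :=
            Finset.abs_sum_le_sum_abs _ _
        _ ≤ ∑ _i ∈ range (d + 1), H * δ := by
            refine Finset.sum_le_sum fun i hi => ?_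
            rw [mem_range] at hi
            rw [abs_mul]
            exact mul_le_mul (hH i (by omega)) (hδ i (by omega)) (abs_nonneg _) hH0
        _ = (d + 1) * (H * δ) := by
            rw [Finset.sum_const, card_range, nsmul_eq_mul]
            push_cast
            ring
        _ ≤ (m + 1) * H * δ := by
            have : (d : ℝ) ≤ m := by exact_mod_cast hdm
            have h3 : 0 ≤ H * δ := mul_nonneg hH0 hδ0
            nlinarith
    have hQ : |∑ i ∈ range d, (c i : ℝ) * ((q : ℝ) * ξ ^ (m + 1 - d + i) - y (m + 1 - d + i))| ≤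
        (m + 1) * H * δ := by
      calc |∑ i ∈ range d, (c i : ℝ) * ((q : ℝ) * ξ ^ (m + 1 - d + i) - y (m + 1 - d + i))|
          ≤ ∑ i ∈ range d, |(c i : ℝ) * ((q : ℝ) * ξ ^ (m + 1 - d + i) - y (m + 1 - d + i))| :=
            Finset.abs_sum_le_sum_abs _ _
        _ ≤ ∑ _i ∈ range d, H * δ := by
            refine Finset.sum_le_sum fun i hi => ?_
            rw [mem_range] at hi
            rw [abs_mul]
            exact mul_le_mul (hH i (by omega)) (hδ _ (by omega)) (abs_nonneg _) hH0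
        _ = d * (H * δ) := by rw [Finset.sum_const, card_range, nsmul_eq_mul]
        _ ≤ (m + 1) * H * δ := by
            have : (d : ℝ) ≤ m := by exact_mod_cast hdm
            have h3 : 0 ≤ H * δ := mul_nonneg hH0 hδ0
            nlinarith
    have hid : (c d : ℝ) * q * ξ ^ (m + 1) - ((-∑ i ∈ range d, c i * y (m + 1 - d + i) : ℤ) : ℝ) =
        ξ ^ (m + 1 - d) * (∑ i ∈ range (d + 1), (c i : ℝ) * ((q : ℝ) * ξ ^ i)) -
        ∑ i ∈ range d, (c i : ℝ) * ((q : ℝ) * ξ ^ (m + 1 - d + i) - y (m + 1 - d + i)) := by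
      rw [Finset.sum_range_succ, mul_add, Finset.mul_sum]
      push_cast
      simp only [mul_sub, Finset.sum_sub_distrib, pow_add]
      have h1 : ξ ^ (m + 1 - d) * ((c d : ℝ) * ((q : ℝ) * ξ ^ d)) = (c d : ℝ) * q * ξ ^ (m + 1) := by
        rw [← Nat.sub_add_cancel (show d ≤ m + 1 by omega), pow_add]
        simp
        ring
      have h2 : ∑ i ∈ range d, ξ ^ (m + 1 - d) * ((c i : ℝ) * ((q : ℝ) * ξ ^ i)) =
          ∑ i ∈ range d, (c i : ℝ) * ((q : ℝ) * (ξ ^ (m + 1 - d) * ξ ^ i)) :=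
        Finset.sum_congr rfl fun i _ => by ring
      rw [h1, h2]
      simp only [← pow_add]
      ring_nf
    rw [hid]
    refine (abs_sub _ _).trans ?_
    rw [abs_mul, abs_pow]
    have h1 : |ξ| ^ (m + 1 - d) ≤ B ^ (m + 1) :=
      (pow_le_pow_left₀ (abs_nonneg _) hBξ _).trans (pow_le_pow_right₀ hB1 (by omega))
    have h2 : 0 ≤ (m + 1) * H * δ := by positivity
    have h3 := mul_le_mul h1 hP (abs_nonneg _) (by positivity)
    nlinarith
  · refine ⟨c d * y j, ?_⟩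
    have h1 : (c d : ℝ) * q * ξ ^ j - ((c d * y j : ℤ) : ℝ) = c d * ((q : ℝ) * ξ ^ j - y j) := by
      push_cast
      ring
    rw [h1, abs_mul]
    have h2 := mul_le_mul (hH d le_rfl) (hδ j hjm) (abs_nonneg _) hH0
    refine h2.trans ?_
    have h3 : 0 ≤ H * δ := mul_nonneg hH0 hδ0
    have h4 : 1 ≤ 2 * ((m : ℝ) + 1) * B ^ (m + 1) := by nlinarith
    nlinarith

/-- good denominators -/
def S (ξ : ℝ) (m : ℕ) (l : ℝ) : Set ℕ :=
  {q : ℕ | 0 < q ∧ ∀ j ∈ Finset.Icc 1 m,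
    |(q : ℝ) * ξ ^ j - ((round ((q : ℝ) * ξ ^ j) : ℤ) : ℝ)| ≤ (q : ℝ) ^ (-l)}

theorem S_mono (ξ : ℝ) (m : ℕ) {l μ : ℝ} (h : μ ≤ l) : S ξ m l ⊆ S ξ m μ := by
  rintro q ⟨hq, hq2⟩
  refine ⟨hq, fun j hj => (hq2 j hj).trans ?_⟩
  exact Real.rpow_le_rpow_of_exponent_le (by exact_mod_cast hq) (by linarith)

theorem S_neg (ξ : ℝ) (m : ℕ) {μ : ℝ} (h : μ ≤ 0) : (S ξ m μ).Infinite := by
  refine Set.infinite_of_forall_exists_gt fun a => ⟨a + 1, ⟨Nat.succ_pos a, fun j _ => ?_⟩,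
    Nat.lt_succ_self a⟩
  refine (abs_sub_round _).trans ((by norm_num : (1 : ℝ) / 2 ≤ 1).trans ?_)
  exact Real.one_le_rpow (by push_cast; linarith [Nat.cast_nonneg (α := ℝ) a]) (by linarith)

theorem step (ξ : ℝ) (m : ℕ) (hm : 1 ≤ m) (l μ : ℝ) (hμ : ((m : ℝ) + 1) * μ < m * l - 1)
    (hS : (S ξ m l).Infinite) : (S ξ (m + 1) μ).Infinite := by
  rcases le_or_gt μ 0 with hμ0 | hμ0
  · exact S_neg ξ _ hμ0
  set B : ℝ := max 1 |ξ| with hB
  have hB1 : 1 ≤ B := le_max_left _ _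
  have hBξ : |ξ| ≤ B := le_max_right _ _
  have hm0 : (0 : ℝ) < m := by exact_mod_cast hm
  set K : ℝ := (m + 1) * (2 * B ^ m) with hK
  have hBm : 1 ≤ B ^ m := one_le_pow₀ hB1
  have hK1 : 1 ≤ K := by
    rw [hK]
    nlinarith
  set K2 : ℝ := 2 * (m + 1) * B ^ (m + 1) with hK2
  have hK2p : 0 < K2 := by positivity
  -- the asymptotic inequality
  have hlim : Filter.Tendsto (fun q : ℕ => K2 * K ^ ((1 + μ) / m) *
      (q : ℝ) ^ (-(l - μ - (1 + μ) / m))) Filter.atTop (nhds 0) := by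
    have h1 : 0 < l - μ - (1 + μ) / m := by
      rw [sub_pos, div_lt_iff₀ hm0]
      nlinarith
    have h2 := ((tendsto_rpow_neg_atTop h1).comp tendsto_natCast_atTop_atTop).const_mul
      (K2 * K ^ ((1 + μ) / m))
    rw [mul_zero] at h2
    exact h2
  obtain ⟨q0, hq0⟩ := Filter.eventually_atTop.1 (hlim.eventually (gt_mem_nhds one_pos))
  refine Set.infinite_of_forall_exists_gt fun a => ?_
  obtain ⟨q, hqS, hq⟩ := hS.exists_gt (max a q0)
  have hqa : a < q := lt_of_le_of_lt (le_max_left _ _) hq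
  have hqq0 : q0 ≤ q := (lt_of_le_of_lt (le_max_right _ _) hq).le
  have hqpos : (0 : ℝ) < q := by exact_mod_cast hqS.1
  have hq1 : (1 : ℝ) ≤ q := by exact_mod_cast hqS.1
  set A : ℝ := 2 * B ^ m * q with hA
  have hA1 : 1 ≤ A := by
    rw [hA]
    nlinarith
  have hy0 : round ((q : ℝ) * ξ ^ 0) = (q : ℤ) := by simp
  obtain ⟨d, hd1, hdm, c, hcd, hcH, hsum⟩ := siegel m hm (fun j => round ((q : ℝ) * ξ ^ j))
    (by show round ((q : ℝ) * ξ ^ 0) ≠ 0
        rw [hy0]; exact_mod_cast hqS.1.ne') A hA1 (fun j hj => by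
      have h1 := abs_sub_round ((q : ℝ) * ξ ^ j)
      have h2 : |(q : ℝ) * ξ ^ j| ≤ q * B ^ m := by
        rw [abs_mul, abs_of_pos hqpos, abs_pow]
        exact mul_le_mul_of_nonneg_left ((pow_le_pow_left₀ (abs_nonneg _) hBξ _).trans
          (pow_le_pow_right₀ hB1 hj)) hqpos.le
      have h3 : |((round ((q : ℝ) * ξ ^ j) : ℤ) : ℝ)| ≤ |(q : ℝ) * ξ ^ j| + 1 / 2 := by
        have := abs_sub_abs_le_abs_sub ((round ((q : ℝ) * ξ ^ j) : ℤ) : ℝ) ((q : ℝ) * ξ ^ j)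
        rw [abs_sub_comm] at this
        linarith
      show |((round ((q : ℝ) * ξ ^ j) : ℤ) : ℝ)| ≤ A
      rw [hA]
      nlinarith)
  set H : ℝ := ((m + 1) * A) ^ ((1 : ℝ) / m) with hH
  have hHeq : H = (K * q) ^ ((1 : ℝ) / m) := by
    rw [hH, hA, hK]
    congr 1
    ring
  have hHpos : 0 < H := by positivity
  have hcd' : (0 : ℝ) < c d := by exact_mod_cast hcd
  have hcdH : (c d : ℝ) ≤ H := (le_abs_self _).trans (hcH d le_rfl)
  have hδ : ∀ j ≤ m, |(q : ℝ) * ξ ^ j - ((round ((q : ℝ) * ξ ^ j) : ℤ) : ℝ)| ≤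
      (q : ℝ) ^ (-l) := by
    intro j hj
    rcases Nat.eq_zero_or_pos j with rfl | hj0
    · rw [hy0]
      simp
      positivity
    · exact hqS.2 j (Finset.mem_Icc.2 ⟨hj0, hj⟩)
  refine ⟨(c d).toNat * q, ⟨?_, fun j hj => ?_⟩, ?_⟩
  · exact Nat.mul_pos (by omega) hqS.1
  · rw [Finset.mem_Icc] at hj
    obtain ⟨z, hz⟩ := step_alg m ξ B hB1 hBξ q (fun j => round ((q : ℝ) * ξ ^ j)) hy0 _ hδ d hd1
      hdm c hcd H hcH hsum j hj.2
    have hQ : (((c d).toNat * q : ℕ) : ℝ) = c d * q := by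
      push_cast
      have : (((c d).toNat : ℤ) : ℝ) = c d := by rw [Int.toNat_of_nonneg hcd.le]
      rw [← this]
      norm_cast
    rw [hQ]
    refine (round_le _ z).trans (hz.trans ?_)
    -- the final inequality
    have h1 : (H * q) ^ (-μ) ≤ ((c d : ℝ) * q) ^ (-μ) :=
      Real.rpow_le_rpow_of_nonpos (by positivity) (mul_le_mul_of_nonneg_right hcdH hqpos.le)
        (by linarith)
    refine le_trans ?_ h1
    have h2 := (hq0 q hqq0).le
    have h3 : K ^ ((1 + μ) / m) * (q : ℝ) ^ ((1 + μ) / m) = H ^ (1 + μ) := by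
      rw [hHeq, ← Real.rpow_mul (by positivity), ← Real.mul_rpow (by positivity) (by positivity)]
      congr 1
      ring
    have h4 : K2 * K ^ ((1 + μ) / m) * (q : ℝ) ^ (-(l - μ - (1 + μ) / m)) =
        K2 * H ^ (1 + μ) * ((q : ℝ) ^ μ * (q : ℝ) ^ (-l)) := by
      rw [← h3]
      have h5 : (q : ℝ) ^ (-(l - μ - (1 + μ) / m)) =
          (q : ℝ) ^ ((1 + μ) / m) * ((q : ℝ) ^ μ * (q : ℝ) ^ (-l)) := by
        rw [← Real.rpow_add hqpos, ← Real.rpow_add hqpos]
        congr 1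
        ring
      rw [h5]
      ring
    have h2' : K2 * K ^ ((1 + μ) / m) * (q : ℝ) ^ (-(l - μ - (1 + μ) / m)) ≤ 1 := h2
    rw [h4] at h2'
    have h6 : (H * q) ^ (-μ) * (H ^ μ * (q : ℝ) ^ μ) = 1 := by
      rw [← Real.mul_rpow hHpos.le hqpos.le, ← Real.rpow_add (by positivity), neg_add_cancel,
        Real.rpow_zero]
    have h7 : H ^ (1 + μ) = H * H ^ μ := by
      rw [Real.rpow_add hHpos, Real.rpow_one]
    rw [h7] at h2'
    have h8 : 0 < (H * q) ^ (-μ) := by positivity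
    calc 2 * (m + 1) * B ^ (m + 1) * H * (q : ℝ) ^ (-l)
        = K2 * H * (q : ℝ) ^ (-l) * ((H * q) ^ (-μ) * (H ^ μ * (q : ℝ) ^ μ)) := by
          rw [h6, mul_one]
      _ = (H * q) ^ (-μ) * (K2 * (H * H ^ μ) * ((q : ℝ) ^ μ * (q : ℝ) ^ (-l))) := by ring
      _ ≤ (H * q) ^ (-μ) * 1 := mul_le_mul_of_nonneg_left h2' h8.le
      _ = _ := mul_one _
  · have : 1 ≤ (c d).toNat := by omega
    calc a < q := hqa
      _ = 1 * q := (one_mul q).symm
      _ ≤ _ := Nat.mul_le_mul_right q this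

/-- The inequality between the exponents, for every real number. -/
theorem main (n : ℕ) (hn : 1 ≤ n) (ξ l : ℝ) (hS : (S ξ n l).Infinite) (m : ℕ) (hnm : n ≤ m) :
    ∀ μ : ℝ, (m : ℝ) * μ < n * l - m + n → (S ξ m μ).Infinite := by
  induction hnm with
  | refl =>
    intro μ hμ
    have hn' : (0 : ℝ) < n := by exact_mod_cast hn
    exact hS.mono (S_mono ξ n (by nlinarith))
  | step hle ih =>
    rename_i m
    intro μ hμ
    have hle' : n ≤ m := hle
    have hm' : (0 : ℝ) < m := by exact_mod_cast lt_of_lt_of_le hn hle'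
    push_cast at hμ
    set μ' : ℝ := ((m + 1) * μ + 1 + (n * l - m + n)) / (2 * m) with hμ'
    have h1 : (m : ℝ) * μ' = ((m + 1) * μ + 1 + (n * l - m + n)) / 2 := by
      rw [hμ']
      field_simp
    exact step ξ m (hn.trans hle') μ' μ (by rw [h1]; linarith) (ih μ' (by rw [h1]; linarith))

end Pool.Agent.X333.GU
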